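import Mathlib

/-!
# MP_496bc7_gt : support sets need not be open in supp-perfect semigroups

A countable supp-perfect semigroup with a Hausdorff semigroup topology in which some `U_x` is not
open.
-/

namespace Pool.Agent.Results.MP_496bc7_gt.SupportSetsNotOpen

open Set Topology

/-- The semi-Zariski topology on a semigroup `S`: the topology generated by the sets
`{x | a x b ≠ c}` and `{x | a x b ≠ c x d}` with `a, b, c, d ∈ S¹`, where `S¹ = WithOne S` is `S`
with an external identity adjoined. -/
@[instance_reducible] def semiZariski (S : Type) [Semigroup S] : TopologicalSpace S :=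
  TopologicalSpace.generateFrom
    ({U | ∃ a b c : WithOne S, U = {x : S | a * (x : WithOne S) * b ≠ c}} ∪
     {U | ∃ a b c d : WithOne S,
        U = {x : S | a * (x : WithOne S) * b ≠ c * (x : WithOne S) * d}})

/-- `Cent(T) = {g ∈ S : g t = t g for all t ∈ T}`. -/
def Cent {S : Type} [Semigroup S] (T : Set S) : Set S := {g | ∀ t ∈ T, g * t = t * g}

/-- `S(F) = {f ∈ S : supp(f) ⊆ F}`. -/
def SF {S X : Type} (supp : S → Set X) (F : Set X) : Set S := {f | supp f ⊆ F}

/-- `(S, supp)` is a supp-semigroup with `X = ⋃ supp(f)` that is supp-perfect. -/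
structure SuppPerfect {S X : Type} [Semigroup S] (supp : S → Set X) : Prop where
  /-- `supp(fg) ⊆ supp(f) ∪ supp(g)` -/
  supp_mul : ∀ f g, supp (f * g) ⊆ supp f ∪ supp g
  /-- elements with disjoint supports commute -/
  comm : ∀ f g, supp f ∩ supp g = ∅ → f * g = g * f
  /-- the supports cover `X` -/
  cover : ⋃ f, supp f = univ
  /-- supports are finite -/
  finite : ∀ f, (supp f).Finite
  /-- `S(F)` is finite for finite `F` -/
  finite_SF : ∀ F : Set X, F.Finite → (SF supp F).Finite
  /-- `S(F) = Cent(S(X \ F))` for finite `F` -/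
  perfect : ∀ F : Set X, F.Finite → SF supp F = Cent (SF supp Fᶜ)

/-! ### Hausdorff semigroup topologies refine the semi-Zariski topology -/

theorem exists_shift {S : Type} [Semigroup S] (t : TopologicalSpace S) (hm : ContinuousMul S)
    (a b : WithOne S) : ∃ φ : S → S, Continuous φ ∧
      ∀ x : S, a * (x : WithOne S) * b = (φ x : WithOne S) := by
  induction a using WithOne.recOneCoe with
  | one =>
    induction b using WithOne.recOneCoe with
    | one => exact ⟨id, continuous_id, fun x => by simp⟩
    | coe b => exact ⟨fun x => x * b, by fun_prop, fun x => by simp⟩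
  | coe a =>
    induction b using WithOne.recOneCoe with
    | one => exact ⟨fun x => a * x, by fun_prop, fun x => by simp⟩
    | coe b => exact ⟨fun x => a * x * b, by fun_prop, fun x => by simp⟩

theorem le_semiZariski {S : Type} [Semigroup S] (t : TopologicalSpace S) (h2 : T2Space S)
    (hm : ContinuousMul S) : t ≤ semiZariski S := by
  apply le_generateFrom
  rintro U (⟨a, b, c, rfl⟩ | ⟨a, b, c, d, rfl⟩)
  · obtain ⟨φ, hφ, h⟩ := exists_shift t hm a b
    induction c using WithOne.recOneCoe with
    | one =>
      have : {x : S | a * (x : WithOne S) * b ≠ 1} = univ := by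
        rw [Set.eq_univ_iff_forall]
        intro x
        change a * (x : WithOne S) * b ≠ 1
        rw [h]
        exact WithOne.coe_ne_one
      rw [this]
      exact isOpen_univ
    | coe c =>
      have : {x : S | a * (x : WithOne S) * b ≠ c} = φ ⁻¹' {c}ᶜ := by
        ext x
        change a * (x : WithOne S) * b ≠ c ↔ _
        rw [h]
        exact not_congr WithOne.coe_inj
      rw [this]
      exact (isClosed_singleton.isOpen_compl).preimage hφ
  · obtain ⟨φ, hφ, h⟩ := exists_shift t hm a b
    obtain ⟨ψ, hψ, h'⟩ := exists_shift t hm c d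
    have : {x : S | a * (x : WithOne S) * b ≠ c * (x : WithOne S) * d} =
        {x : S | φ x = ψ x}ᶜ := by
      ext x
      change a * (x : WithOne S) * b ≠ c * (x : WithOne S) * d ↔ _
      rw [h, h']
      exact not_congr WithOne.coe_inj
    rw [this]
    exact (isClosed_eq hφ hψ).isOpen_compl

/-! ### The generators -/

/-- The generators of the semigroup. -/
inductive A : Type
  | f (n : ℕ) : A
  | g (k : ℕ) : A
  | t (a : A) (j l : ℕ) : A

/-- An injective coding of the generators. -/
def enc : A → ℕ
  | .f n => Nat.pair 0 n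
  | .g k => Nat.pair 1 k
  | .t a j l => Nat.pair 2 (Nat.pair (enc a) (Nat.pair j l))

theorem enc_injective : Function.Injective enc := by
  intro a
  induction a with
  | f n =>
    intro b h
    cases b with
    | f m => simp only [enc, Nat.pair_eq_pair] at h; rw [h.2]
    | g k => simp only [enc, Nat.pair_eq_pair] at h; omega
    | t a j l => simp only [enc, Nat.pair_eq_pair] at h; omega
  | g k =>
    intro b h
    cases b with
    | f m => simp only [enc, Nat.pair_eq_pair] at h; omega
    | g k => simp only [enc, Nat.pair_eq_pair] at h; rw [h.2]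
    | t a j l => simp only [enc, Nat.pair_eq_pair] at h; omega
  | t a j l ih =>
    intro b h
    cases b with
    | f m => simp only [enc, Nat.pair_eq_pair] at h; omega
    | g k => simp only [enc, Nat.pair_eq_pair] at h; omega
    | t a' j' l' =>
      simp only [enc, Nat.pair_eq_pair] at h
      rw [ih h.2.1, h.2.2.1, h.2.2.2]

/-- The supports of the generators. -/
def sA : A → Set ℕ
  | .f n => if n = 0 then {0} else {i | 1 ≤ i ∧ i ≤ n}
  | .g k => {0, k + 1}
  | .t a j l => {j, enc a + l + 1}

/-- The relation: `R u v` means `u * v = b`. -/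
def R (u v : A) : Prop :=
  (∃ n k, u = .f n ∧ v = .g k ∧ (n = 0 ∨ k + 1 ≤ n)) ∨
  (∃ j l, v = .t u j l ∧ j ∈ sA u ∧ u ≠ .f 0)

/-- The semigroup. -/
inductive S : Type
  | el (a : A) : S
  | b : S
  | z : S

open Classical in
/-- The multiplication: `u * v = b` if `R u v`, all other products are `z`. -/
noncomputable def mulS : S → S → S
  | .el u, .el v => if R u v then .b else .z
  | _, _ => .z

noncomputable instance : Mul S := ⟨mulS⟩

theorem el_mul_el_of (u v : A) (h : R u v) : S.el u * S.el v = S.b := if_pos h
theorem el_mul_el_not (u v : A) (h : ¬ R u v) : S.el u * S.el v = S.z := if_neg h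
theorem b_mul (v : S) : S.b * v = S.z := by cases v <;> rfl
theorem z_mul (v : S) : S.z * v = S.z := by cases v <;> rfl
theorem mul_b (v : S) : v * S.b = S.z := by cases v <;> rfl
theorem mul_z (v : S) : v * S.z = S.z := by cases v <;> rfl

theorem mul_cases (u v : S) : u * v = S.b ∨ u * v = S.z := by
  cases u with
  | el u =>
    cases v with
    | el v =>
      by_cases h : R u v
      · exact Or.inl (el_mul_el_of u v h)
      · exact Or.inr (el_mul_el_not u v h)
    | b => exact Or.inr rfl
    | z => exact Or.inr rfl
  | b => exact Or.inr (b_mul v)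
  | z => exact Or.inr (z_mul v)

noncomputable instance : Semigroup S where
  mul_assoc := by
    intro u v w
    have h1 : u * v * w = S.z := by
      rcases mul_cases u v with h | h <;> rw [h]
      · exact b_mul w
      · exact z_mul w
    have h2 : u * (v * w) = S.z := by
      rcases mul_cases v w with h | h <;> rw [h]
      · exact mul_b u
      · exact mul_z u
    rw [h1, h2]

/-- The support map. -/
def supp : S → Set ℕ
  | .el a => sA a
  | .b => ∅
  | .z => ∅

theorem R_meet {u v : A} (h : R u v) : ∃ j, j ∈ sA u ∧ j ∈ sA v := by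
  rcases h with ⟨n, k, rfl, rfl, h⟩ | ⟨j, l, rfl, hj, -⟩
  · rcases h with rfl | h
    · exact ⟨0, by simp [sA], by simp [sA]⟩
    · refine ⟨k + 1, ?_, by simp [sA]⟩
      have : n ≠ 0 := by omega
      simp [sA, this, h]
  · exact ⟨j, hj, by simp [sA]⟩

theorem finite_sA (a : A) : (sA a).Finite := by
  cases a with
  | f n =>
    by_cases h : n = 0
    · simp [sA, h]
    · simp only [sA, h, if_false]
      exact (Set.finite_Iic n).subset fun i hi => hi.2
  | g k => exact Set.toFinite ({0, k + 1} : Set ℕ)
  | t a j l => exact Set.toFinite ({j, enc a + l + 1} : Set ℕ)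

theorem nonempty_sA (a : A) : (sA a).Nonempty := by
  cases a with
  | f n =>
    by_cases h : n = 0
    · simp [sA, h]
    · simp only [sA, h, if_false]
      exact ⟨1, le_refl 1, by omega⟩
  | g k => exact ⟨0, by simp [sA]⟩
  | t a j l => exact ⟨j, by simp [sA]⟩

theorem not_R_t (a : A) (j l : ℕ) : ¬ R (.t a j l) a := by
  rintro (⟨n, k, h, -, -⟩ | ⟨j', l', h, -, -⟩)
  · cases h
  · have := congrArg sizeOf h
    simp at this
    omega

theorem suppPerfect : SuppPerfect supp where
  supp_mul := by
    intro u v
    rcases mul_cases u v with h | h <;> rw [h] <;> exact Set.empty_subset _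
  comm := by
    intro u v h
    cases u with
    | el u =>
      cases v with
      | el v =>
        have hn : ∀ j, j ∈ sA u → j ∈ sA v → False := fun j h1 h2 => by
          have : j ∈ supp (S.el u) ∩ supp (S.el v) := ⟨h1, h2⟩
          rw [h] at this
          exact this
        rw [el_mul_el_not u v fun hR => by
            obtain ⟨j, h1, h2⟩ := R_meet hR
            exact hn j h1 h2,
          el_mul_el_not v u fun hR => by
            obtain ⟨j, h1, h2⟩ := R_meet hR
            exact hn j h2 h1]
      | b => rw [mul_b, b_mul]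
      | z => rw [mul_z, z_mul]
    | b => rw [mul_b, b_mul]
    | z => rw [mul_z, z_mul]
  cover := by
    rw [Set.eq_univ_iff_forall]
    intro j
    rw [Set.mem_iUnion]
    by_cases h : j = 0
    · subst h
      exact ⟨.el (.f 0), by simp [supp, sA]⟩
    · refine ⟨.el (.f j), ?_⟩
      simp only [supp, sA, h, if_false]
      exact ⟨by omega, le_refl j⟩
  finite := by
    intro u
    cases u with
    | el a => exact finite_sA a
    | b => exact Set.finite_empty
    | z => exact Set.finite_empty
  finite_SF := by
    intro F hF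
    obtain ⟨M, hM⟩ := hF.bddAbove
    -- all generators in question
    have h1 : {a : A | enc a ≤ M}.Finite := by
      refine Set.Finite.of_injOn (f := enc) (t := Set.Iic M) (fun a ha => ha)
        enc_injective.injOn (Set.finite_Iic M)
    have h2 : SF supp F ⊆ ({S.b, S.z} ∪ (fun n => S.el (.f n)) '' Set.Iic M ∪
        (fun n => S.el (.g n)) '' Set.Iic M) ∪
        (fun p : A × ℕ × ℕ => S.el (.t p.1 p.2.1 p.2.2)) ''
          ({a : A | enc a ≤ M} ×ˢ (Set.Iic M ×ˢ Set.Iic M)) := by
      intro w hw
      cases w with
      | el a =>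
        cases a with
        | f n =>
          left; left; right
          refine ⟨n, ?_, rfl⟩
          by_cases h : n = 0
          · simp [h]
          · have : n ∈ supp (.el (.f n)) := by
              simp only [supp, sA, h, if_false]
              exact ⟨by omega, le_refl n⟩
            exact hM (hw this)
        | g k =>
          left; right
          refine ⟨k, ?_, rfl⟩
          have : k + 1 ∈ supp (.el (.g k)) := by simp [supp, sA]
          have := hM (hw this)
          simp only [Set.mem_Iic]; omega
        | t a j l =>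
          right
          have h3 : j ∈ supp (.el (.t a j l)) := by simp [supp, sA]
          have h4 : enc a + l + 1 ∈ supp (.el (.t a j l)) := by simp [supp, sA]
          have h5 := hM (hw h3)
          have h6 := hM (hw h4)
          refine ⟨(a, j, l), ⟨?_, ?_, ?_⟩, rfl⟩
          · change enc a ≤ M; omega
          · exact h5
          · change l ≤ M; omega
      | b => left; left; left; simp
      | z => left; left; left; simp
    refine Set.Finite.subset ?_ h2
    refine (((Set.toFinite ({S.b, S.z} : Set S)).union ((Set.finite_Iic M).image _)).union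
      ((Set.finite_Iic M).image _)).union ?_
    exact (h1.prod ((Set.finite_Iic M).prod (Set.finite_Iic M))).image _
  perfect := by
    intro F hF
    apply Set.Subset.antisymm
    · intro u hu v hv
      -- disjoint supports
      have hdis : ∀ j, j ∈ supp u → j ∈ supp v → False := fun j h1 h2 => (hv h2) (hu h1)
      cases u with
      | el u =>
        cases v with
        | el v =>
          rw [el_mul_el_not u v fun hR => by
              obtain ⟨j, h1, h2⟩ := R_meet hR
              exact hdis j h1 h2,
            el_mul_el_not v u fun hR => by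
              obtain ⟨j, h1, h2⟩ := R_meet hR
              exact hdis j h2 h1]
        | b => rw [mul_b, b_mul]
        | z => rw [mul_z, z_mul]
      | b => rw [mul_b, b_mul]
      | z => rw [mul_z, z_mul]
    · intro u hu j hj
      by_contra hjF
      obtain ⟨M, hM⟩ := hF.bddAbove
      cases u with
      | el a =>
        by_cases ha : a = .f 0
        · subst ha
          have hj0 : j = 0 := by simpa [supp, sA] using hj
          subst hj0
          have h1 : S.el (.g M) ∈ SF supp Fᶜ := by
            intro i hi
            have : i = 0 ∨ i = M + 1 := by simpa [supp, sA] using hi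
            rcases this with rfl | rfl
            · exact hjF
            · intro h
              have := hM h
              omega
          have h2 := hu _ h1
          rw [el_mul_el_of _ _ (Or.inl ⟨0, M, rfl, rfl, Or.inl rfl⟩), el_mul_el_not] at h2
          · cases h2
          · rintro (⟨n, k, h, -, -⟩ | ⟨j', l', h, -, -⟩) <;> cases h
        · have h1 : S.el (.t a j M) ∈ SF supp Fᶜ := by
            intro i hi
            have : i = j ∨ i = enc a + M + 1 := by simpa [supp, sA] using hi
            rcases this with rfl | rfl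
            · exact hjF
            · intro h
              have := hM h
              omega
          have h2 := hu _ h1
          rw [el_mul_el_of _ _ (Or.inr ⟨j, M, rfl, hj, ha⟩), el_mul_el_not _ _ (not_R_t a j M)]
            at h2
          cases h2
      | b => exact hj
      | z => exact hj

/-! ### The topology -/

/-- All points are isolated, except that `f n → f 0`. -/
@[instance_reducible] def top : TopologicalSpace S where
  IsOpen U := S.el (.f 0) ∈ U → ∃ N, ∀ n, N ≤ n → S.el (.f n) ∈ U
  isOpen_univ := fun _ => ⟨0, fun _ _ => trivial⟩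
  isOpen_inter := by
    intro U V hU hV h
    obtain ⟨N, hN⟩ := hU h.1
    obtain ⟨M, hM⟩ := hV h.2
    exact ⟨max N M, fun n hn => ⟨hN n (le_trans (le_max_left _ _) hn),
      hM n (le_trans (le_max_right _ _) hn)⟩⟩
  isOpen_sUnion := by
    rintro 𝒰 h ⟨U, hU, hmem⟩
    obtain ⟨N, hN⟩ := h U hU hmem
    exact ⟨N, fun n hn => ⟨U, hU, hN n hn⟩⟩

theorem isOpen_top_iff {U : Set S} : IsOpen[top] U ↔
    (S.el (.f 0) ∈ U → ∃ N, ∀ n, N ≤ n → S.el (.f n) ∈ U) := Iff.rfl

theorem isOpen_of_notMem {U : Set S} (h : S.el (.f 0) ∉ U) : IsOpen[top] U :=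
  fun h' => absurd h' h

theorem t2 : @T2Space S top := by
  refine @T2Space.mk S top ?_
  intro p q hpq
  by_cases hp : p = S.el (.f 0)
  · subst hp
    refine ⟨{q}ᶜ, {q}, ?_, isOpen_of_notMem hpq, hpq, rfl, ?_⟩
    · intro _
      -- eventually `f n ≠ q`
      by_cases hq : ∃ m, q = S.el (.f m)
      · obtain ⟨m, rfl⟩ := hq
        refine ⟨m + 1, fun n hn h => ?_⟩
        have h1 : n = m := by
          have : S.el (.f n) = S.el (.f m) := h
          simpa using this
        omega
      · exact ⟨0, fun n _ h => hq ⟨n, h.symm⟩⟩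
    · exact disjoint_compl_left
  · refine ⟨{p}, {p}ᶜ, isOpen_of_notMem (fun h => hp h.symm), ?_, rfl, Ne.symm hpq,
      disjoint_compl_right⟩
    intro _
    by_cases hq : ∃ m, p = S.el (.f m)
    · obtain ⟨m, rfl⟩ := hq
      refine ⟨m + 1, fun n hn h => ?_⟩
      have h1 : n = m := by
        have : S.el (.f n) = S.el (.f m) := h
        simpa using this
      omega
    · exact ⟨0, fun n _ h => hq ⟨n, h.symm⟩⟩

/-- Basic neighbourhoods of `f 0`. -/
def W (N : ℕ) : Set S := {p | p = S.el (.f 0) ∨ ∃ n, N ≤ n ∧ p = S.el (.f n)}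

theorem isOpen_W (N : ℕ) : IsOpen[top] (W N) :=
  fun _ => ⟨N, fun n hn => Or.inr ⟨n, hn, rfl⟩⟩

theorem not_R_f (u : A) (n : ℕ) : ¬ R u (.f n) := by
  rintro (⟨m, k, -, h, -⟩ | ⟨j', l', h, -, -⟩) <;> cases h

/-- `R (f n) v` is eventually equal to `R (f 0) v`. -/
theorem eventually_R (v : A) : ∃ N, ∀ n, N ≤ n → (R (.f n) v ↔ R (.f 0) v) := by
  cases v with
  | f m => exact ⟨0, fun n _ => iff_of_false (not_R_f _ _) (not_R_f _ _)⟩
  | g k =>
    refine ⟨k + 1, fun n hn => iff_of_true ?_ ?_⟩
    · exact Or.inl ⟨n, k, rfl, rfl, Or.inr hn⟩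
    · exact Or.inl ⟨0, k, rfl, rfl, Or.inl rfl⟩
  | t a j l =>
    have h0 : ¬ R (.f 0) (.t a j l) := by
      rintro (⟨m, k, -, h, -⟩ | ⟨j', l', h, -, h3⟩)
      · cases h
      · exact h3 rfl
    refine ⟨enc a + 1, fun n hn => iff_of_false ?_ h0⟩
    rintro (⟨m, k, -, h, -⟩ | ⟨j', l', h, -, h3⟩)
    · cases h
    · have h4 : a = .f n := by
        simp only [A.t.injEq] at h
        exact h.1
      rw [h4] at hn
      have h5 : n ≤ enc (.f n) := by
        change n ≤ Nat.pair 0 n
        exact Nat.right_le_pair 0 n
      omega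

theorem continuousMul : @ContinuousMul S top _ := by
  let _ : TopologicalSpace S := top
  refine ⟨continuous_iff_continuousAt.2 ?_⟩
  rintro ⟨p, q⟩
  -- locally constant
  have key : ∃ U V : Set S, IsOpen U ∧ IsOpen V ∧ p ∈ U ∧ q ∈ V ∧
      ∀ p' ∈ U, ∀ q' ∈ V, p' * q' = p * q := by
    by_cases hp : p = S.el (.f 0)
    · subst hp
      by_cases hq : q = S.el (.f 0)
      · subst hq
        refine ⟨W 0, W 0, isOpen_W 0, isOpen_W 0, Or.inl rfl, Or.inl rfl, ?_⟩
        have : ∀ p ∈ W 0, ∃ n, p = S.el (.f n) := by
          rintro p (h | ⟨n, -, h⟩)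
          · exact ⟨0, h⟩
          · exact ⟨n, h⟩
        intro p' hp' q' hq'
        obtain ⟨n, rfl⟩ := this p' hp'
        obtain ⟨m, rfl⟩ := this q' hq'
        rw [el_mul_el_not _ _ (not_R_f _ _), el_mul_el_not _ _ (not_R_f _ _)]
      · cases q with
        | el v =>
          obtain ⟨N, hN⟩ := eventually_R v
          refine ⟨W N, {S.el v}, isOpen_W N, isOpen_of_notMem (fun h => hq h.symm), Or.inl rfl,
            rfl, ?_⟩
          rintro p' (rfl | ⟨n, hn, rfl⟩) q' rfl
          · rfl
          · by_cases hR : R (.f 0) v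
            · rw [el_mul_el_of _ _ hR, el_mul_el_of _ _ ((hN n hn).2 hR)]
            · rw [el_mul_el_not _ _ hR, el_mul_el_not _ _ (fun h => hR ((hN n hn).1 h))]
        | b =>
          refine ⟨univ, {S.b}, isOpen_univ, isOpen_of_notMem (fun h => hq h.symm), trivial,
            rfl, ?_⟩
          rintro p' - q' rfl
          rw [mul_b, mul_b]
        | z =>
          refine ⟨univ, {S.z}, isOpen_univ, isOpen_of_notMem (fun h => hq h.symm), trivial,
            rfl, ?_⟩
          rintro p' - q' rfl
          rw [mul_z, mul_z]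
    · by_cases hq : q = S.el (.f 0)
      · subst hq
        refine ⟨{p}, W 0, isOpen_of_notMem (fun h => hp h.symm), isOpen_W 0, rfl, Or.inl rfl, ?_⟩
        have : ∀ p ∈ W 0, ∃ n, p = S.el (.f n) := by
          rintro p (h | ⟨n, -, h⟩)
          · exact ⟨0, h⟩
          · exact ⟨n, h⟩
        rintro p' rfl q' hq'
        obtain ⟨m, rfl⟩ := this q' hq'
        cases p' with
        | el u => rw [el_mul_el_not _ _ (not_R_f _ _), el_mul_el_not _ _ (not_R_f _ _)]
        | b => rw [b_mul, b_mul]
        | z => rw [z_mul, z_mul]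
      · refine ⟨{p}, {q}, isOpen_of_notMem (fun h => hp h.symm),
          isOpen_of_notMem (fun h => hq h.symm), rfl, rfl, ?_⟩
        rintro p' rfl q' rfl
        rfl
  obtain ⟨U, V, hU, hV, hpU, hqV, hc⟩ := key
  have hmem : U ×ˢ V ∈ 𝓝 (p, q) := (hU.prod hV).mem_nhds ⟨hpU, hqV⟩
  have heq : (fun r : S × S => r.1 * r.2) =ᶠ[𝓝 (p, q)] fun _ => p * q := by
    filter_upwards [hmem] with r hr
    exact hc r.1 hr.1 r.2 hr.2
  exact (continuousAt_const).congr heq.symm

theorem not_isOpen_U : ¬ IsOpen[top] {w : S | 0 ∈ supp w} := by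
  intro h
  obtain ⟨N, hN⟩ := h (by simp [supp, sA])
  have h1 := hN (N + 1) (by omega)
  simp [supp, sA] at h1

/-- There are a supp-perfect pair `(S, supp)`, a point `x` and a Hausdorff semigroup topology `τ`
on `S` such that `U_x = {f : x ∈ supp(f)}` is not open in `τ`; moreover it is not open in the
semi-Zariski topology. -/
theorem result : ∃ (S X : Type) (_ : Semigroup S) (supp : S → Set X) (x : X)
    (τ : TopologicalSpace S), SuppPerfect supp ∧ T2Space S ∧ ContinuousMul S ∧
      ¬ IsOpen {f : S | x ∈ supp f} ∧ ¬ IsOpen[semiZariski S] {f : S | x ∈ supp f} := by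
  refine ⟨S, ℕ, inferInstance, supp, 0, top, suppPerfect, t2, continuousMul, not_isOpen_U, ?_⟩
  intro h
  exact not_isOpen_U (le_semiZariski top t2 continuousMul _ h)

end Pool.Agent.Results.MP_496bc7_gt.SupportSetsNotOpen
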